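import Pool.Agent.H24.SCG2.Stmts5

namespace Pool.SCG

theorem isStringC_comp {A B : Type} [Group A] [Group B] (φ : A →* B)
    (hφ : Function.Injective φ) (r : ℕ) (ρ : Fin r → A) :
    IsStringC r (fun i => φ (ρ i)) ↔ IsStringC r ρ := by
  have him : ∀ I : Set (Fin r), Subgroup.closure ((fun i => φ (ρ i)) '' I) =
      (Subgroup.closure (ρ '' I)).map φ := fun I => by
    rw [MonoidHom.map_closure, Set.image_image]
  have hord : ∀ i, orderOf (φ (ρ i)) = orderOf (ρ i) := fun i =>
    orderOf_injective φ hφ (ρ i)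
  constructor
  · intro h
    refine ⟨fun i => (hord i).symm.trans (h.invol i), fun i j hij => ?_, fun I J => ?_⟩
    · apply hφ
      rw [map_mul, map_mul]
      exact h.comm i j hij
    · have := h.inter I J
      rw [him, him, him, ← Subgroup.map_inf_eq _ _ φ hφ] at this
      exact Subgroup.map_injective hφ this
  · intro h
    refine ⟨fun i => (hord i).trans (h.invol i), fun i j hij => ?_, fun I J => ?_⟩
    · show φ (ρ i) * φ (ρ j) = φ (ρ j) * φ (ρ i)
      rw [← map_mul, ← map_mul, h.comm i j hij]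
    · rw [him, him, him, ← Subgroup.map_inf_eq _ _ φ hφ, h.inter I J]

theorem trn_thm : TRNStmt := by
  intro A B _ _ φ hφ G r
  constructor
  · rintro ⟨ρ', h, hG⟩
    have hmem : ∀ i, ∃ a : A, φ a = ρ' i := fun i => by
      have h1 : ρ' i ∈ G.map φ := by
        rw [← hG]
        exact Subgroup.subset_closure ⟨i, rfl⟩
      obtain ⟨a, -, ha⟩ := Subgroup.mem_map.1 h1
      exact ⟨a, ha⟩
    choose ρ hρ using hmem
    have he : ρ' = fun i => φ (ρ i) := funext fun i => (hρ i).symm
    subst he
    refine ⟨ρ, (isStringC_comp φ hφ r ρ).1 h, ?_⟩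
    apply Subgroup.map_injective hφ
    rw [MonoidHom.map_closure, ← Set.range_comp]
    exact hG
  · rintro ⟨ρ, h, hG⟩
    refine ⟨fun i => φ (ρ i), (isStringC_comp φ hφ r ρ).2 h, ?_⟩
    rw [← hG, MonoidHom.map_closure, ← Set.range_comp]
    rfl

end Pool.SCG
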